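import Pool.Agent.TH176.Nag.Defs

set_option autoImplicit false

namespace Pool.Agent.TH819.NagA

open Finset Pool.Agent.TH176.Nag

section one

/-- a Laurent polynomial in one variable with many zeros vanishes -/
theorem one_var {ι : Type} [Fintype ι] (x : ι → ℚ) (hx : Function.Injective x) (hx0 : ∀ i, x i ≠ 0)
    (w : ι → ℕ) (h : ℤ →₀ ℚ) (α β : ℝ) (hs : ∀ a ∈ h.support, α ≤ (a : ℝ) ∧ (a : ℝ) ≤ β)
    (hB : β - α < ∑ i, (w i : ℝ))
    (hz : ∀ i, ∀ c < w i, (h.sum fun a v => v * ((a : ℚ) ^ c * x i ^ a)) = 0) : h = 0 := by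
  classical
  by_contra hne
  have hsn : h.support.Nonempty := Finsupp.support_nonempty_iff.2 hne
  set a0 := h.support.min' hsn with ha0
  have ha0m : a0 ∈ h.support := Finset.min'_mem _ _
  have hle : ∀ a ∈ h.support, a0 ≤ a := fun a ha => Finset.min'_le _ _ ha
  -- all polynomial weights
  have hP : ∀ i, ∀ P : Polynomial ℚ, P.natDegree < w i →
      (h.sum fun a v => v * (P.eval (a : ℚ) * x i ^ a)) = 0 := by
    intro i P hP
    have h1 : (h.sum fun a v => v * (P.eval (a : ℚ) * x i ^ a)) =
        ∑ c ∈ range (P.natDegree + 1), P.coeff c * (h.sum fun a v => v * ((a : ℚ) ^ c * x i ^ a)) := by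
      unfold Finsupp.sum
      simp_rw [Finset.mul_sum]
      rw [Finset.sum_comm]
      refine Finset.sum_congr rfl fun a _ => ?_
      rw [Polynomial.eval_eq_sum_range, Finset.sum_mul, Finset.mul_sum]
      refine Finset.sum_congr rfl fun c _ => ?_
      ring
    rw [h1]
    refine Finset.sum_eq_zero fun c hc => ?_
    rw [hz i c (by have := Finset.mem_range.1 hc; omega), mul_zero]
  -- the polynomial
  set p : Polynomial ℚ := ∑ a ∈ h.support, Polynomial.monomial (a - a0).toNat (h a) with hp
  have hcoeff : ∀ a ∈ h.support, p.coeff (a - a0).toNat = h a := by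
    intro a ha
    rw [hp, Polynomial.finsetSum_coeff, Finset.sum_eq_single a]
    · simp
    · intro b hb hba
      rw [Polynomial.coeff_monomial, if_neg]
      intro h2
      apply hba
      have := hle a ha
      have := hle b hb
      omega
    · intro h2
      exact absurd ha h2
  have hp0 : p ≠ 0 := by
    intro h2
    have h3 := hcoeff a0 ha0m
    rw [h2, Polynomial.coeff_zero] at h3
    exact (Finsupp.mem_support_iff.1 ha0m) h3.symm
  have hdeg : (p.natDegree : ℝ) ≤ β - α := by
    have h1 : ∀ n ∈ p.support, (n : ℝ) ≤ β - α := by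
      intro n hn
      rw [Polynomial.mem_support_iff, hp, Polynomial.finsetSum_coeff] at hn
      obtain ⟨a, ha, h2⟩ := Finset.exists_ne_zero_of_sum_ne_zero hn
      rw [Polynomial.coeff_monomial] at h2
      have h3 : (a - a0).toNat = n := by
        by_contra h4
        rw [if_neg h4] at h2
        exact h2 rfl
      have h4 := hle a ha
      have h5 : (n : ℝ) = (a : ℝ) - a0 := by
        rw [← h3]
        have : (((a - a0).toNat : ℤ)) = a - a0 := Int.toNat_of_nonneg (by omega)
        have h6 : ((((a - a0).toNat : ℤ)) : ℝ) = ((a - a0 : ℤ) : ℝ) := by rw [this]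
        push_cast at h6
        exact_mod_cast h6
      rw [h5]
      have h6 := (hs a ha).2
      have h7 := (hs a0 ha0m).1
      linarith
    exact h1 _ (Polynomial.natDegree_mem_support_of_nonzero hp0)
  -- multiplicities
  have hroot : ∀ i, ∀ c < w i, ((Polynomial.derivative^[c]) p).eval (x i) = 0 := by
    intro i c hc
    have hdp : ((descPochhammer ℚ c).comp (Polynomial.X - Polynomial.C (a0 : ℚ))).natDegree < w i := by
      refine lt_of_le_of_lt (Polynomial.natDegree_comp_le) ?_
      rw [descPochhammer_natDegree, Polynomial.natDegree_X_sub_C, mul_one]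
      exact hc
    have h1 := hP i _ hdp
    have h2 : ((Polynomial.derivative^[c]) p).eval (x i) =
        (x i ^ (a0 + c))⁻¹ * (h.sum fun a v => v *
          (((descPochhammer ℚ c).comp (Polynomial.X - Polynomial.C (a0 : ℚ))).eval (a : ℚ) *
            x i ^ a)) := by
      rw [hp, Polynomial.iterate_derivative_sum, Polynomial.eval_finsetSum, Finsupp.sum,
        Finset.mul_sum]
      refine Finset.sum_congr rfl fun a ha => ?_
      have h3 := hle a ha
      rw [← Polynomial.C_mul_X_pow_eq_monomial, Polynomial.iterate_derivative_C_mul,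
        Polynomial.iterate_derivative_X_pow_eq_natCast_mul, Polynomial.eval_mul,
        Polynomial.eval_mul, Polynomial.eval_C, Polynomial.eval_pow, Polynomial.eval_X,
        Polynomial.eval_natCast, Polynomial.eval_comp, Polynomial.eval_sub, Polynomial.eval_X,
        Polynomial.eval_C]
      have h4 : ((a : ℚ) - (a0 : ℚ)) = (((a - a0).toNat : ℕ) : ℚ) := by
        have : (((a - a0).toNat : ℤ)) = a - a0 := Int.toNat_of_nonneg (by omega)
        have h6 : ((((a - a0).toNat : ℤ)) : ℚ) = ((a - a0 : ℤ) : ℚ) := by rw [this]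
        push_cast at h6
        exact_mod_cast h6.symm
      rw [h4, descPochhammer_eval_eq_descFactorial]
      rcases lt_or_ge (a - a0).toNat c with h5 | h5
      · rw [Nat.descFactorial_of_lt h5]
        simp
      · have h6 : x i ^ ((a - a0).toNat - c) = (x i ^ (a0 + c))⁻¹ * x i ^ a := by
          rw [← zpow_neg, ← zpow_add₀ (hx0 i), ← zpow_natCast]
          congr 1
          omega
        rw [h6]
        ring
    rw [h2, h1, mul_zero]
  have hdvd : ∀ i, (Polynomial.X - Polynomial.C (x i)) ^ w i ∣ p := by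
    intro i
    rw [← Polynomial.le_rootMultiplicity_iff hp0]
    rcases Nat.eq_zero_or_pos (w i) with h0 | h0
    · omega
    · have h1 : w i - 1 < p.rootMultiplicity (x i) := by
        rw [Polynomial.lt_rootMultiplicity_iff_isRoot_iterate_derivative hp0]
        intro m hm
        exact hroot i m (by omega)
      omega
  have hprod : (∏ i, (Polynomial.X - Polynomial.C (x i)) ^ w i) ∣ p := by
    apply Finset.prod_dvd_of_coprime
    · intro i _ j _ hij
      exact (Polynomial.pairwise_coprime_X_sub_C hx hij).pow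
    · intro i _
      exact hdvd i
  have h1 := Polynomial.natDegree_le_of_dvd hprod hp0
  rw [Polynomial.natDegree_prod_of_monic _ _ (fun i _ => (Polynomial.monic_X_sub_C _).pow _)] at h1
  simp_rw [Polynomial.natDegree_pow, Polynomial.natDegree_X_sub_C, mul_one] at h1
  have h2 : ((∑ i, w i : ℕ) : ℝ) ≤ p.natDegree := by exact_mod_cast h1
  push_cast at h2
  linarith

end one

section two

variable {K : Type*} [Field K]

theorem pr_add_left (f g : (ℤ × ℤ) →₀ K) (x y : K) (P : K × K → K) :
    pr (f + g) x y P = pr f x y P + pr g x y P := by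
  classical
  unfold pr
  exact Finsupp.sum_add_index' (by simp) (by intro m a b; ring)

theorem pr_zero_left (x y : K) (P : K × K → K) : pr (0 : (ℤ × ℤ) →₀ K) x y P = 0 := by
  unfold pr
  simp

theorem pr_single (m : ℤ × ℤ) (c x y : K) (P : K × K → K) :
    pr (Finsupp.single m c) x y P = c * P ((m.1 : K), (m.2 : K)) * (x ^ m.1 * y ^ m.2) := by
  unfold pr
  rw [Finsupp.sum_single_index (by ring)]

theorem pr_sum_left {κ : Type*} (s : Finset κ) (F : κ → (ℤ × ℤ) →₀ K) (x y : K) (P : K × K → K) :
    pr (∑ k ∈ s, F k) x y P = ∑ k ∈ s, pr (F k) x y P := by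
  classical
  induction s using Finset.induction_on with
  | empty => simp [pr_zero_left]
  | insert a s ha ih => rw [Finset.sum_insert ha, Finset.sum_insert ha, pr_add_left, ih]

/-- division by `y - 1` -/
noncomputable def dv (f : (ℤ × ℤ) →₀ K) : (ℤ × ℤ) →₀ K :=
  ∑ m ∈ f.support, ∑ j ∈ range m.2.toNat, Finsupp.single (m.1, (j : ℤ)) (f m)

theorem dv_apply (f : (ℤ × ℤ) →₀ K) (a : ℤ) (j : ℕ) :
    dv f (a, (j : ℤ)) = ∑ m ∈ f.support, if m.1 = a ∧ j < m.2.toNat then f m else 0 := by
  classical
  unfold dv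
  rw [Finsupp.finsetSum_apply]
  refine Finset.sum_congr rfl fun m _ => ?_
  rw [Finsupp.finsetSum_apply]
  simp_rw [Finsupp.single_apply, Prod.mk.injEq, Nat.cast_inj]
  split_ifs with h
  · rw [Finset.sum_eq_single j]
    · simp [h.1]
    · intro b _ hb
      rw [if_neg]
      exact fun h2 => hb h2.2
    · intro h2
      exact absurd (Finset.mem_range.2 h.2) h2
  · refine Finset.sum_eq_zero fun b hb => ?_
    rw [if_neg]
    rintro ⟨h2, rfl⟩
    exact h ⟨h2, Finset.mem_range.1 hb⟩

theorem dv_supp {f : (ℤ × ℤ) →₀ K} {m : ℤ × ℤ} (hm : m ∈ (dv f).support) :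
    0 ≤ m.2 ∧ ∃ b : ℤ, m.2 < b ∧ (m.1, b) ∈ f.support := by
  classical
  unfold dv at hm
  obtain ⟨m', hm', h1⟩ := Finset.mem_biUnion.1 (Finsupp.support_finsetSum hm)
  obtain ⟨j, hj, h2⟩ := Finset.mem_biUnion.1 (Finsupp.support_finsetSum h1)
  have h3 := Finsupp.support_single_subset h2
  rw [Finset.mem_singleton] at h3
  subst h3
  have h4 := Finset.mem_range.1 hj
  refine ⟨by simp, m'.2, ?_, hm'⟩
  simp only []
  omega

/-- the hockey stick identity -/
theorem hockey [CharZero K] (e n : ℕ) :
    ∑ j ∈ range n, ∏ t ∈ range e, ((j : K) - (t : K)) =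
      (∏ t ∈ range (e + 1), ((n : K) - (t : K))) / ((e : K) + 1) := by
  have he : ((e : K) + 1) ≠ 0 := by
    have : ((e + 1 : ℕ) : K) ≠ 0 := by exact_mod_cast Nat.succ_ne_zero e
    push_cast at this
    exact this
  induction n with
  | zero =>
    rw [Finset.sum_range_zero, Finset.prod_range_succ']
    simp
  | succ n ih =>
    rw [Finset.sum_range_succ, ih, eq_div_iff he, add_mul, div_mul_cancel₀ _ he]
    have h1 : ∏ t ∈ range (e + 1), (((n + 1 : ℕ) : K) - (t : K)) =
        ((n : K) + 1) * ∏ t ∈ range e, ((n : K) - (t : K)) := by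
      rw [Finset.prod_range_succ', mul_comm]
      push_cast
      congr 1
      · ring
      · refine Finset.prod_congr rfl fun t _ => ?_
        ring
    rw [h1, Finset.prod_range_succ]
    ring

theorem dv_LM [CharZero K] {f : (ℤ × ℤ) →₀ K} (hpos : ∀ m ∈ f.support, 0 ≤ m.2) {x : K} {w : ℕ}
    (h : LM f x 1 w) : LM (dv f) x 1 (w - 1) := by
  apply LM_of_desc
  intro c e hce
  have he : ((e : K) + 1) ≠ 0 := by
    have : ((e + 1 : ℕ) : K) ≠ 0 := by exact_mod_cast Nat.succ_ne_zero e
    push_cast at this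
    exact this
  have h1 := h.desc (a := c) (b := e + 1) (by omega)
  have h2 : pr (dv f) x 1 (fun u : K × K => u.1 ^ c * ∏ t ∈ range e, (u.2 - (t : K))) =
      ((e : K) + 1)⁻¹ * pr f x 1 (fun u : K × K => u.1 ^ c * ∏ t ∈ range (e + 1), (u.2 - (t : K))) := by
    unfold dv
    rw [pr_sum_left]
    conv_rhs => rw [pr, Finsupp.sum, Finset.mul_sum]
    refine Finset.sum_congr rfl fun m hm => ?_
    rw [pr_sum_left]
    simp_rw [pr_single]
    have h3 : ∀ j : ℕ, f m * ((m.1 : K) ^ c * ∏ t ∈ range e, ((((j : ℕ) : ℤ) : K) - (t : K))) *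
        (x ^ m.1 * 1 ^ ((j : ℕ) : ℤ)) =
        (f m * (m.1 : K) ^ c * x ^ m.1) * ∏ t ∈ range e, ((j : K) - (t : K)) := by
      intro j
      push_cast
      rw [one_zpow]
      ring
    simp_rw [h3]
    rw [← Finset.mul_sum, hockey]
    have h4 : ((m.2.toNat : ℕ) : K) = (m.2 : K) := by
      have : ((m.2.toNat : ℕ) : ℤ) = m.2 := Int.toNat_of_nonneg (hpos m hm)
      have h5 : (((m.2.toNat : ℕ) : ℤ) : K) = ((m.2 : ℤ) : K) := by rw [this]
      push_cast at h5
      exact h5
    rw [h4, one_zpow]
    field_simp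
  rw [h2, h1, mul_zero]

theorem main {ι : Type} [Fintype ι] (x : ι → ℚ) (hx : Function.Injective x) (hx0 : ∀ i, x i ≠ 0)
    (μ ν : ℝ) (hμ : 0 ≤ μ) (hν : 0 ≤ ν) (hn : μ + ν = Fintype.card ι) (H : ℕ) :
    ∀ (f : (ℤ × ℤ) →₀ ℚ) (α β : ℝ) (w : ι → ℕ), β - α < ∑ i, (w i : ℝ) →
      (↑f.support : Set (ℤ × ℤ)) ⊆ Reg α β μ ν → (∀ m ∈ f.support, m.2 < H) →
      (∀ i, LM f (x i) 1 (w i)) → f = 0 := by
  classical
  induction H with
  | zero =>
    intro f α β w _ hS hH _
    rw [← Finsupp.support_eq_empty, Finset.eq_empty_iff_forall_notMem]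
    intro m hm
    have h1 := (hS hm).1
    have h2 := hH m hm
    simp at h2
    omega
  | succ H ih =>
    intro f α β w hB hS hH hL
    have hpos : ∀ m ∈ f.support, 0 ≤ m.2 := fun m hm => (hS hm).1
    -- the sums of the columns
    set h : ℤ →₀ ℚ := f.mapDomain Prod.fst with hh
    have hh0 : h = 0 := by
      refine one_var x hx hx0 w h α β ?_ hB ?_
      · intro a ha
        have h1 := Finsupp.mapDomain_support ha
        obtain ⟨m, hm, rfl⟩ := Finset.mem_image.1 h1
        have h2 := hS hm
        have h3 : (0 : ℝ) ≤ (m.2 : ℝ) := by exact_mod_cast h2.1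
        have h4 := h2.2.1
        have h5 := h2.2.2
        constructor
        · nlinarith
        · nlinarith
      · intro i c hc
        have h1 := hL i _ (mem_PF_mono (K := ℚ) (a := c) (b := 0) (w := w i) (by omega))
        rw [hh, Finsupp.sum_mapDomain_index (by simp) (by intro m a b; ring)]
        unfold pr at h1
        rw [← h1]
        refine Finset.sum_congr rfl fun m _ => ?_
        simp
        ring
    have hd : dv f = 0 := by
      refine ih (dv f) (α + μ) (β - ν) (fun i => w i - 1) ?_ ?_ ?_ (fun i => dv_LM hpos (hL i))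
      · have h1 : ∑ i, (w i : ℝ) ≤ ∑ i, (((w i - 1 : ℕ) : ℝ) + 1) := by
          refine Finset.sum_le_sum fun i _ => ?_
          have : w i ≤ (w i - 1) + 1 := by omega
          exact_mod_cast this
        rw [Finset.sum_add_distrib] at h1
        simp only [Finset.sum_const, Finset.card_univ, nsmul_eq_mul, mul_one] at h1
        linarith
      · intro m hm
        obtain ⟨h1, b, h2, h3⟩ := dv_supp hm
        obtain ⟨-, h4, h5⟩ := hS h3
        simp only [] at h4 h5
        have h6 : (m.2 : ℝ) + 1 ≤ (b : ℝ) := by exact_mod_cast h2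
        refine ⟨h1, ?_, ?_⟩
        · nlinarith
        · nlinarith
      · intro m hm
        obtain ⟨h1, b, h2, h3⟩ := dv_supp hm
        have h4 := hH _ h3
        simp only [] at h4
        push_cast at h4
        omega
    -- recover f
    have hcol : ∀ a : ℤ, (∑ m ∈ f.support, if m.1 = a then f m else 0) = 0 := by
      intro a
      have h1 : h a = 0 := by rw [hh0]; rfl
      rw [hh, Finsupp.mapDomain, Finsupp.sum, Finsupp.finsetSum_apply] at h1
      simp_rw [Finsupp.single_apply] at h1
      exact h1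
    have htail : ∀ (a : ℤ) (j : ℕ), (∑ m ∈ f.support, if m.1 = a ∧ j < m.2.toNat then f m else 0) = 0 := by
      intro a j
      rw [← dv_apply, hd]
      rfl
    ext ⟨a, b⟩
    rw [Finsupp.zero_apply]
    by_contra hne
    have hm : (a, b) ∈ f.support := Finsupp.mem_support_iff.2 hne
    have hb := hpos _ hm
    simp only [] at hb
    -- `f (a,b)` is a difference of tails
    have key : ∀ T : ℕ → Prop, ∀ [DecidablePred T], (∀ n, T n ↔ (b.toNat ≤ n)) →
        (∑ m ∈ f.support, if m.1 = a ∧ T m.2.toNat then f m else 0) =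
        (∑ m ∈ f.support, if m.1 = a ∧ b.toNat < m.2.toNat then f m else 0) + f (a, b) := by
      intro T _ hT
      have h1 : f (a, b) = ∑ m ∈ f.support, if m = (a, b) then f m else 0 := by
        rw [Finset.sum_ite_eq' f.support (a, b) fun m => f m, if_pos hm]
      rw [h1, ← Finset.sum_add_distrib]
      refine Finset.sum_congr rfl fun m hm' => ?_
      have h2 := hpos m hm'
      by_cases h3 : m = (a, b)
      · subst h3
        simp [hT]
      · rw [if_neg h3, add_zero]
        by_cases h4 : m.1 = a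
        · have h5 : m.2 ≠ b := fun h6 => h3 (Prod.ext h4 h6)
          have h6 : T m.2.toNat ↔ b.toNat < m.2.toNat := by
            rw [hT]
            omega
          simp only [h4, h6, true_and]
        · simp only [h4, false_and, if_false]
    rcases Nat.eq_zero_or_pos b.toNat with h0 | h0
    · have h1 := key (fun _ => True) (fun n => by simp [h0])
      simp only [and_true] at h1
      rw [hcol, htail, zero_add] at h1
      exact hne h1.symm
    · have h1 := key (fun n => b.toNat - 1 < n) (fun n => by omega)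
      rw [htail, htail, zero_add] at h1
      exact hne h1.symm

theorem Emp_final {ι : Type} [Fintype ι] (w : ι → ℕ) (α β μ ν : ℝ) (hμ : 0 ≤ μ) (hν : 0 ≤ ν)
    (hn : μ + ν = Fintype.card ι) (hB : β - α < ∑ i, (w i : ℝ)) : Emp w (Reg α β μ ν) := by
  classical
  set e := Fintype.equivFin ι
  have hinj : Function.Injective fun i : ι => (((e i : ℕ) + 1 : ℕ) : ℚ) := by
    intro i j hij
    simp only [Nat.cast_inj] at hij
    exact e.injective (Fin.ext (by omega))
  have h0 : ∀ i : ι, (((e i : ℕ) + 1 : ℕ) : ℚ) ≠ 0 := fun i => Nat.cast_ne_zero.2 (Nat.succ_ne_zero _)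
  refine ⟨ℚ, inferInstance, inferInstance, fun i => (((e i : ℕ) + 1 : ℕ) : ℚ), fun _ => 1,
    h0, fun _ => one_ne_zero, fun f hS hL => ?_⟩
  obtain ⟨H, hH⟩ : ∃ H : ℕ, ∀ m ∈ f.support, m.2 < H := by
    refine ⟨(f.support.sup fun m => m.2.toNat) + 1, fun m hm => ?_⟩
    have h1 : m.2.toNat ≤ f.support.sup fun m => m.2.toNat :=
      Finset.le_sup (f := fun m : ℤ × ℤ => m.2.toNat) hm
    push_cast
    omega
  exact main _ hinj h0 μ ν hμ hν hn H f α β w hB hS hH hL

end two

end Pool.Agent.TH819.NagA
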